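import Pool.Agent.N447.Conn

set_option autoImplicit false

namespace Pool.Agent.N447

open Finset

theorem main_fin {V ι : Type*} [DecidableEq V] [DecidableEq ι]
    (e : ι → Finset V) (d : V → Finset ι) (hed : ∀ v i, v ∈ e i ↔ i ∈ d v) (w : V → ℝ) :
    ∀ (n : ℕ) (A : Finset V) (S : Finset ι), S.card = n →
      (∀ i ∈ S, e i ⊆ A ∧ (e i).card = 3) → (∀ v ∈ A, d v ⊆ S ∧ (d v).card = 3) →
      ∃ T ⊆ A, (∀ i ∈ S, ∃ x ∈ T, x ∈ e i) ∧ 2 * ∑ x ∈ T, w x ≤ ∑ x ∈ A, w x := by
  intro n
  induction n using Nat.strong_induction_on with
  | _ n ih =>
    intro A S hSn hS hA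
    by_cases hex : ∃ F : Finset ι, F ⊆ S ∧ F.Nonempty ∧ F ≠ S ∧ (F.biUnion e).card ≤ F.card
    · obtain ⟨F, hFS, hFne, hFneS, hFcard⟩ := hex
      set N := F.biUnion e with hN
      have hNA : N ⊆ A := Finset.biUnion_subset.2 fun i hi => (hS i (hFS hi)).1
      have hdN : ∀ v ∈ N, d v ⊆ F := by
        have h1 : ∑ i ∈ F, (e i).card = ∑ x ∈ N, (d x ∩ F).card := by
          have h := Finset.sum_card_bipartiteAbove_eq_sum_card_bipartiteBelow
            (s := F) (t := N) (fun i v => v ∈ e i)
          have ha : ∀ i ∈ F, (Finset.bipartiteAbove (fun i v => v ∈ e i) N i) = e i := by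
            intro i hi
            ext v
            simp only [Finset.bipartiteAbove, Finset.mem_filter]
            exact ⟨fun h => h.2, fun h => ⟨Finset.mem_biUnion.2 ⟨i, hi, h⟩, h⟩⟩
          have hb : ∀ v, (Finset.bipartiteBelow (fun i v => v ∈ e i) F v) = d v ∩ F := by
            intro v
            ext i
            simp only [Finset.bipartiteBelow, Finset.mem_filter, Finset.mem_inter, hed]
            exact and_comm
          simp only [hb] at h
          rw [← h]
          exact Finset.sum_congr rfl fun i hi => by rw [ha i hi]
        have h2 : ∑ i ∈ F, (e i).card = 3 * F.card := by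
          rw [Finset.sum_congr rfl (fun i hi => (hS i (hFS hi)).2), Finset.sum_const, smul_eq_mul,
            mul_comm]
        intro v hv
        by_contra hcon
        have h4 : ∀ x ∈ N, (d x ∩ F).card + (if x = v then 1 else 0) ≤ 3 := by
          intro x hx
          by_cases hxv : x = v
          · subst hxv
            have h5 : (d x ∩ F).card < (d x).card := by
              apply Finset.card_lt_card
              refine ⟨Finset.inter_subset_left, fun h => hcon (fun y hy => ?_)⟩
              exact (Finset.mem_inter.1 (h hy)).2
            rw [(hA x (hNA hx)).2] at h5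
            simp only [if_true]
            omega
          · have h5 : (d x ∩ F).card ≤ (d x).card :=
              Finset.card_le_card Finset.inter_subset_left
            rw [(hA x (hNA hx)).2] at h5
            simp only [hxv, if_false]
            omega
        have h5 := Finset.sum_le_sum h4
        rw [Finset.sum_add_distrib, ← h1, h2, Finset.sum_const, Finset.sum_ite_eq' N v, if_pos hv,
          smul_eq_mul] at h5
        omega
      have hFlt : F.card < n := by
        rw [← hSn]
        exact Finset.card_lt_card (Finset.ssubset_iff_subset_ne.2 ⟨hFS, hFneS⟩)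
      have hSFlt : (S \ F).card < n := by
        have h1 := Finset.card_sdiff_add_card_eq_card hFS
        have h2 := Finset.card_pos.2 hFne
        omega
      obtain ⟨T1, hT1N, hT1, hT1w⟩ := ih F.card hFlt N F rfl
        (fun i hi => ⟨Finset.subset_biUnion_of_mem e hi, (hS i (hFS hi)).2⟩)
        (fun v hv => ⟨hdN v hv, (hA v (hNA hv)).2⟩)
      obtain ⟨T2, hT2N, hT2, hT2w⟩ := ih (S \ F).card hSFlt (A \ N) (S \ F) rfl
        (by
          intro i hi
          obtain ⟨hiS, hiF⟩ := Finset.mem_sdiff.1 hi
          refine ⟨fun x hx => Finset.mem_sdiff.2 ⟨(hS i hiS).1 hx, fun hxN => ?_⟩, (hS i hiS).2⟩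
          exact hiF (hdN x hxN ((hed x i).1 hx)))
        (by
          intro v hv
          obtain ⟨hvA, hvN⟩ := Finset.mem_sdiff.1 hv
          refine ⟨fun i hi => Finset.mem_sdiff.2 ⟨(hA v hvA).1 hi, fun hiF => ?_⟩, (hA v hvA).2⟩
          exact hvN (Finset.mem_biUnion.2 ⟨i, hiF, (hed v i).2 hi⟩))
      have hdisj : Disjoint T1 T2 := by
        refine Finset.disjoint_of_subset_left hT1N (Finset.disjoint_of_subset_right hT2N ?_)
        exact Finset.disjoint_sdiff
      refine ⟨T1 ∪ T2, Finset.union_subset (hT1N.trans hNA) (hT2N.trans Finset.sdiff_subset),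
        ?_, ?_⟩
      · intro i hi
        by_cases hiF : i ∈ F
        · obtain ⟨x, hx, hxi⟩ := hT1 i hiF
          exact ⟨x, Finset.mem_union_left _ hx, hxi⟩
        · obtain ⟨x, hx, hxi⟩ := hT2 i (Finset.mem_sdiff.2 ⟨hi, hiF⟩)
          exact ⟨x, Finset.mem_union_right _ hx, hxi⟩
      · rw [Finset.sum_union hdisj, ← Finset.sum_sdiff hNA]
        linarith
    · push Not at hex
      -- pass to subtypes
      let e' : S → Finset A := fun i => univ.filter (fun x : A => (x : V) ∈ e i)
      let d' : A → Finset S := fun v => univ.filter (fun i : S => (i : ι) ∈ d v)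
      have he'map : ∀ i : S, (e' i).map (Function.Embedding.subtype _) = e i := by
        intro i
        ext x
        simp only [e', Finset.mem_map, Finset.mem_filter, Finset.mem_univ, true_and,
          Function.Embedding.subtype_apply]
        constructor
        · rintro ⟨y, hy, rfl⟩
          exact hy
        · intro hx
          exact ⟨⟨x, (hS i i.2).1 hx⟩, hx, rfl⟩
      have hd'map : ∀ v : A, (d' v).map (Function.Embedding.subtype _) = d v := by
        intro v
        ext x
        simp only [d', Finset.mem_map, Finset.mem_filter, Finset.mem_univ, true_and,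
          Function.Embedding.subtype_apply]
        constructor
        · rintro ⟨y, hy, rfl⟩
          exact hy
        · intro hx
          exact ⟨⟨x, (hA v v.2).1 hx⟩, hx, rfl⟩
      obtain ⟨T, hT, hTw⟩ := main_conn e' d'
        (by
          intro v i
          simp only [e', d', Finset.mem_filter, Finset.mem_univ, true_and]
          exact hed v i)
        (by
          intro i
          rw [← Finset.card_map (Function.Embedding.subtype _), he'map]
          exact (hS i i.2).2)
        (by
          intro v
          rw [← Finset.card_map (Function.Embedding.subtype _), hd'map]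
          exact (hA v v.2).2)
        (by
          intro F hFne hFu
          have h1 : (F.biUnion e').map (Function.Embedding.subtype _)
              = (F.map (Function.Embedding.subtype _)).biUnion e := by
            ext x
            simp only [Finset.mem_map, Finset.mem_biUnion]
            constructor
            · rintro ⟨y, ⟨i, hi, hyi⟩, rfl⟩
              refine ⟨i, ⟨i, hi, rfl⟩, ?_⟩
              simpa [e'] using hyi
            · rintro ⟨i, ⟨j, hj, rfl⟩, hx⟩
              refine ⟨⟨x, (hS j j.2).1 hx⟩, ⟨j, hj, ?_⟩, rfl⟩
              simpa [e'] using hx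
          have h2 := hex (F.map (Function.Embedding.subtype _))
            (by
              intro i hi
              obtain ⟨j, _, rfl⟩ := Finset.mem_map.1 hi
              exact j.2)
            (by simpa using hFne)
            (by
              intro h
              apply hFu
              ext i
              simp only [Finset.mem_univ, iff_true]
              have hi : (i : ι) ∈ F.map (Function.Embedding.subtype _) := by
                rw [h]; exact i.2
              obtain ⟨j, hj, hji⟩ := Finset.mem_map.1 hi
              have : j = i := Subtype.ext hji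
              exact this ▸ hj)
          rw [← h1, Finset.card_map, Finset.card_map] at h2
          exact h2)
        (fun v => w v)
      refine ⟨T.map (Function.Embedding.subtype _), ?_, ?_, ?_⟩
      · intro x hx
        obtain ⟨y, _, rfl⟩ := Finset.mem_map.1 hx
        exact y.2
      · intro i hi
        obtain ⟨x, hx, hxi⟩ := hT ⟨i, hi⟩
        refine ⟨x, Finset.mem_map.2 ⟨x, hx, rfl⟩, ?_⟩
        simpa [e'] using hxi
      · rw [Finset.sum_map, ← Finset.sum_coe_sort A]
        simpa using hTw

/-- Cubic graphs: for all vertex weights there is a total dominating set with at most half of the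
total weight. -/
theorem cubic_light {V : Type*} [Fintype V] [DecidableEq V] (G : SimpleGraph V)
    [DecidableRel G.Adj] (hG : G.IsRegularOfDegree 3) (w : V → ℝ) :
    ∃ T : Finset V, (∀ v, ∃ u ∈ T, G.Adj v u) ∧ 2 * ∑ x ∈ T, w x ≤ ∑ x, w x := by
  obtain ⟨T, -, hT, hTw⟩ := main_fin (fun v => G.neighborFinset v) (fun v => G.neighborFinset v)
    (by intro v i; simp [SimpleGraph.adj_comm]) w _ univ univ rfl
    (by
      intro i _
      exact ⟨Finset.subset_univ _, hG i⟩)
    (by
      intro i _
      exact ⟨Finset.subset_univ _, hG i⟩)
  refine ⟨T, fun v => ?_, hTw⟩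
  obtain ⟨x, hx, hxv⟩ := hT v (Finset.mem_univ v)
  exact ⟨x, hx, (SimpleGraph.mem_neighborFinset _ _ _).1 hxv⟩

end Pool.Agent.N447
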