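import Mathlib

set_option autoImplicit false

namespace Pool.Agent.N447

open Finset

/-- Seymour-type lemma: if every nonempty subfamily of a finite family of finite sets covers more
points than its number of members, then the points can be two-coloured with no monochromatic
member. -/
theorem two_color {V ι : Type*} [DecidableEq V] [DecidableEq ι] (e : ι → Finset V) :
    ∀ (n : ℕ) (s : Finset ι), s.card = n →
      (∀ F : Finset ι, F ⊆ s → F.Nonempty → F.card < (F.biUnion e).card) →
      ∃ c : V → Bool, ∀ i ∈ s, (∃ v ∈ e i, c v = true) ∧ (∃ v ∈ e i, c v = false) := by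
  intro n
  induction n using Nat.strong_induction_on with
  | _ n ih =>
    intro s hs hall
    rcases s.eq_empty_or_nonempty with rfl | hne
    · exact ⟨fun _ => true, by simp⟩
    · have hlt := hall s (Finset.Subset.refl s) hne
      -- linear map
      let N : Finset V := s.biUnion e
      let L : (N → ℝ) →ₗ[ℝ] (s → ℝ) :=
        { toFun := fun x i => ∑ v : N, if (v : V) ∈ e i then x v else 0
          map_add' := by
            intro x y
            funext i
            simp only [Pi.add_apply]
            rw [← Finset.sum_add_distrib]
            refine Finset.sum_congr rfl fun v _ => ?_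
            split_ifs <;> simp
          map_smul' := by
            intro a x
            funext i
            simp only [Pi.smul_apply, smul_eq_mul, RingHom.id_apply]
            rw [Finset.mul_sum]
            refine Finset.sum_congr rfl fun v _ => ?_
            split_ifs <;> simp }
      have hker : LinearMap.ker L ≠ ⊥ := by
        apply LinearMap.ker_ne_bot_of_finrank_lt
        simpa using hlt
      obtain ⟨x, hx, hx0⟩ := (Submodule.ne_bot_iff _).1 hker
      have hxL : ∀ i : s, ∑ v : N, (if (v : V) ∈ e i then x v else 0) = 0 := by
        intro i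
        have := congrFun (LinearMap.mem_ker.1 hx) i
        simpa [L] using this
      -- extend x by zero
      let y : V → ℝ := fun v => if h : v ∈ N then x ⟨v, h⟩ else 0
      have hysum : ∀ i ∈ s, ∑ v ∈ e i, y v = 0 := by
        intro i hi
        have h1 := hxL ⟨i, hi⟩
        have hsub : e i ⊆ N := Finset.subset_biUnion_of_mem e hi
        have h2 : ∑ v ∈ N, (if v ∈ e i then y v else 0) = 0 := by
          have h3 : ∑ v ∈ N, (if v ∈ e i then y v else 0)
              = ∑ v : N, (if (v : V) ∈ e i then x v else 0) := by
            rw [← Finset.sum_coe_sort N]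
            refine Finset.sum_congr rfl fun v _ => ?_
            have hyv : y (v : V) = x v := by
              simp only [y]
              rw [dif_pos v.2]
            rw [hyv]
          rw [h3]
          exact h1
        rw [← Finset.sum_filter] at h2
        rw [← h2]
        refine Finset.sum_congr ?_ fun _ _ => rfl
        ext v
        simp only [Finset.mem_filter]
        exact ⟨fun h => ⟨hsub h, h⟩, fun h => h.2⟩
      have hyne : ∃ v ∈ N, y v ≠ 0 := by
        by_contra hcon
        push Not at hcon
        apply hx0
        funext v
        have := hcon v v.2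
        simpa [y] using this
      let s0 : Finset ι := s.filter (fun i => ∀ v ∈ e i, y v = 0)
      have hs0 : s0 ⊂ s := by
        refine Finset.filter_ssubset.2 ?_
        obtain ⟨v, hv, hyv⟩ := hyne
        obtain ⟨i, hi, hvi⟩ := Finset.mem_biUnion.1 hv
        exact ⟨i, hi, fun h => hyv (h v hvi)⟩
      obtain ⟨c0, hc0⟩ := ih s0.card (hs ▸ Finset.card_lt_card hs0) s0 rfl
        (fun F hF hFne => hall F (hF.trans hs0.subset) hFne)
      refine ⟨fun v => if 0 < y v then true else if y v < 0 then false else c0 v, ?_⟩
      intro i hi
      by_cases hi0 : i ∈ s0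
      · have hz : ∀ v ∈ e i, y v = 0 := (Finset.mem_filter.1 hi0).2
        obtain ⟨⟨a, ha, hca⟩, ⟨b, hb, hcb⟩⟩ := hc0 i hi0
        refine ⟨⟨a, ha, ?_⟩, ⟨b, hb, ?_⟩⟩
        · simp [hz a ha, hca]
        · simp [hz b hb, hcb]
      · have hnz : ∃ v ∈ e i, y v ≠ 0 := by
          by_contra hcon
          push Not at hcon
          exact hi0 (Finset.mem_filter.2 ⟨hi, hcon⟩)
        have hpos := Finset.exists_pos_of_sum_zero_of_exists_nonzero y (hysum i hi) hnz
        have hneg := Finset.exists_pos_of_sum_zero_of_exists_nonzero (fun v => - y v)
          (by rw [Finset.sum_neg_distrib, hysum i hi, neg_zero])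
          (by obtain ⟨v, hv, hv'⟩ := hnz; exact ⟨v, hv, neg_ne_zero.2 hv'⟩)
        obtain ⟨a, ha, hya⟩ := hpos
        obtain ⟨b, hb, hyb⟩ := hneg
        refine ⟨⟨a, ha, ?_⟩, ⟨b, hb, ?_⟩⟩
        · simp [hya]
        · have hb' : y b < 0 := by linarith
          simp [hb', not_lt.2 hb'.le]

end Pool.Agent.N447
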