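import Pool.Agent.N447.Pair

set_option autoImplicit false

namespace Pool.Agent.N447

open Finset

/-- The connected case: a connected 3-uniform 3-regular hypergraph has, for every weight function,
a transversal of at most half the total weight. -/
theorem main_conn {V ι : Type*} [Fintype V] [DecidableEq V] [Fintype ι] [DecidableEq ι]
    (e : ι → Finset V) (d : V → Finset ι) (hed : ∀ v i, v ∈ e i ↔ i ∈ d v)
    (h3 : ∀ i, (e i).card = 3) (hd : ∀ v, (d v).card = 3)
    (hconn : ∀ F : Finset ι, F.Nonempty → F ≠ univ → F.card < (F.biUnion e).card)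
    (w : V → ℝ) :
    ∃ T : Finset V, (∀ i, ∃ x ∈ T, x ∈ e i) ∧ 2 * ∑ x ∈ T, w x ≤ ∑ x, w x := by
  classical
  -- equal cardinalities
  have hcard : Fintype.card V = Fintype.card ι := by
    have h1 : ∑ i : ι, (e i).card = ∑ v : V, (d v).card := by
      have h := Finset.sum_card_bipartiteAbove_eq_sum_card_bipartiteBelow
        (s := (univ : Finset ι)) (t := (univ : Finset V)) (fun i v => v ∈ e i)
      have ha : ∀ i : ι, (Finset.bipartiteAbove (fun i v => v ∈ e i) (univ : Finset V) i) = e i := by
        intro i
        ext v
        simp [Finset.bipartiteAbove]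
      have hb : ∀ v : V, (Finset.bipartiteBelow (fun i v => v ∈ e i) (univ : Finset ι) v) = d v := by
        intro v
        ext i
        simp [Finset.bipartiteBelow, hed]
      simpa only [ha, hb] using h
    simp only [h3, hd, Finset.sum_const, Finset.card_univ, smul_eq_mul] at h1
    omega
  set n := Fintype.card V with hn
  rcases isEmpty_or_nonempty V with hVe | hVne
  · refine ⟨∅, fun i => ?_, by simp⟩
    have := h3 i
    have h0 : (e i) = ∅ := Finset.eq_empty_of_isEmpty _
    rw [h0] at this
    simp at this
  have hdV : ∀ v, ∃ i, v ∈ e i := by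
    intro v
    obtain ⟨i, hi⟩ := Finset.card_pos.1 (by rw [hd v]; norm_num : 0 < (d v).card)
    exact ⟨i, (hed v i).2 hi⟩
  -- connectivity for vertex sets
  have hconnV : ∀ W : Finset V, W.Nonempty → W ≠ univ → W.card < (W.biUnion d).card := by
    intro W hW hWu
    have hWlt : W.card < n := by
      rw [hn]
      exact (Finset.card_lt_iff_ne_univ W).2 hWu
    have hMle : (W.biUnion d).card ≤ n := by
      rw [hcard]
      exact Finset.card_le_univ _
    by_cases hF : ((W.biUnion d)ᶜ).Nonempty
    · have hFu : (W.biUnion d)ᶜ ≠ univ := by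
        obtain ⟨v, hv⟩ := hW
        obtain ⟨i, hi⟩ := hdV v
        intro h
        have : i ∈ (W.biUnion d)ᶜ := by rw [h]; exact Finset.mem_univ _
        rw [Finset.mem_compl] at this
        exact this (Finset.mem_biUnion.2 ⟨v, hv, (hed v i).1 hi⟩)
      have h1 := hconn _ hF hFu
      have h2 : ((W.biUnion d)ᶜ).biUnion e ⊆ Wᶜ := by
        intro x hx
        obtain ⟨i, hi, hxi⟩ := Finset.mem_biUnion.1 hx
        rw [Finset.mem_compl] at hi ⊢
        intro hxW
        exact hi (Finset.mem_biUnion.2 ⟨x, hxW, (hed x i).1 hxi⟩)
      have h3' := Finset.card_le_card h2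
      rw [Finset.card_compl] at h1 h3'
      rw [← hcard] at h1
      omega
    · rw [Finset.not_nonempty_iff_eq_empty, Finset.compl_eq_empty_iff] at hF
      rw [hF, Finset.card_univ, ← hcard]
      exact hWlt
  -- tight sets
  let TE : Finset ι → Prop := fun F => F.Nonempty ∧ (F.biUnion e).card = F.card + 1 ∧ F.card + 2 ≤ n
  let TV : Finset V → Prop := fun W => W.Nonempty ∧ (W.biUnion d).card = W.card + 1 ∧ W.card + 2 ≤ n
  have good_apply : ∀ s v : V, s ≠ v → w v ≤ w s →
      (∀ F, TE F → v ∉ F.biUnion e → s ∉ F.biUnion e) →
      ∃ T : Finset V, (∀ i, ∃ x ∈ T, x ∈ e i) ∧ 2 * ∑ x ∈ T, w x ≤ ∑ x, w x := by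
    intro s v hsv hwv hgood
    obtain ⟨T, hT, hTw⟩ := pair e w s v hsv (by
      intro F hFne hv
      have hFu : F ≠ univ := by
        rintro rfl
        obtain ⟨i, hi⟩ := hdV v
        exact hv (Finset.mem_biUnion.2 ⟨i, Finset.mem_univ _, hi⟩)
      have h1 := hconn F hFne hFu
      refine ⟨h1, fun hs => ?_⟩
      by_contra hcon
      have h2 : (F.biUnion e).card = F.card + 1 := by omega
      have h3' : (F.biUnion e).card < n := by
        rw [hn]
        refine (Finset.card_lt_iff_ne_univ _).2 ?_
        intro h
        rw [h] at hv
        exact hv (Finset.mem_univ _)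
      exact hgood F ⟨hFne, h2, by omega⟩ hv hs)
    exact ⟨T, hT, by linarith⟩
  -- duality
  have dual : ∀ F, TE F → TV ((F.biUnion e)ᶜ) ∧ ((F.biUnion e)ᶜ).card + F.card + 1 = n ∧
      ((F.biUnion e)ᶜ).biUnion d ⊆ Fᶜ := by
    rintro F ⟨hFne, hFc, hFn⟩
    have hc : ((F.biUnion e)ᶜ).card = n - (F.card + 1) := by
      rw [Finset.card_compl, hFc]
    have hsub : ((F.biUnion e)ᶜ).biUnion d ⊆ Fᶜ := by
      intro i hi
      obtain ⟨x, hx, hxi⟩ := Finset.mem_biUnion.1 hi
      rw [Finset.mem_compl] at hx ⊢
      intro hiF
      exact hx (Finset.mem_biUnion.2 ⟨i, hiF, (hed x i).2 hxi⟩)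
    have hne : ((F.biUnion e)ᶜ).Nonempty := by
      rw [← Finset.card_pos, hc]
      omega
    have hnu : (F.biUnion e)ᶜ ≠ univ := by
      intro h
      have : ((F.biUnion e)ᶜ).card = n := by rw [h, Finset.card_univ]
      rw [hc] at this
      omega
    have h1 := hconnV _ hne hnu
    have h2 := Finset.card_le_card hsub
    have hFpos := Finset.card_pos.2 hFne
    rw [Finset.card_compl (s := F), ← hcard] at h2
    refine ⟨⟨hne, ?_, ?_⟩, ?_, hsub⟩
    · omega
    · omega
    · omega
  by_cases hex : ∃ k, (∃ F, TE F ∧ F.card = k) ∨ (∃ W, TV W ∧ W.card = k)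
  swap
  · -- no tight sets at all
    push Not at hex
    obtain ⟨v, -, hv⟩ := Finset.exists_min_image (univ : Finset V) w Finset.univ_nonempty
    obtain ⟨i, hi⟩ := hdV v
    have hex2 : ∃ s, s ∈ (e i).erase v := by
      apply Finset.card_pos.1
      rw [Finset.card_erase_of_mem hi, h3 i]
      norm_num
    obtain ⟨s, hs⟩ := hex2
    refine good_apply s v (Finset.mem_erase.1 hs).1 (hv s (Finset.mem_univ _)) ?_
    intro F hF
    exact absurd rfl ((hex F.card).1 F hF)
  · classical
    obtain ⟨k, hk, hmin⟩ : ∃ k, ((∃ F, TE F ∧ F.card = k) ∨ (∃ W, TV W ∧ W.card = k)) ∧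
        ∀ m < k, ¬ ((∃ F, TE F ∧ F.card = m) ∨ (∃ W, TV W ∧ W.card = m)) :=
      ⟨Nat.find hex, Nat.find_spec hex, fun m hm => Nat.find_min hex hm⟩
    have hminE : ∀ F, TE F → k ≤ F.card := by
      intro F hF
      by_contra hcon
      exact hmin F.card (by omega) (Or.inl ⟨F, hF, rfl⟩)
    have hminV : ∀ W, TV W → k ≤ W.card := by
      intro W hW
      by_contra hcon
      exact hmin W.card (by omega) (Or.inr ⟨W, hW, rfl⟩)
    rcases hk.symm with ⟨W', hW', hW'k⟩ | ⟨F', hF', hF'k⟩
    · -- Case 1: smallest tight set is a vertex set
      have hk2 : 2 ≤ W'.card := by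
        by_contra hcon
        have h1 : W'.card = 1 := by
          have := Finset.card_pos.2 hW'.1
          omega
        obtain ⟨x, hx⟩ := Finset.card_eq_one.1 h1
        have h2 := hW'.2.1
        rw [hx] at h2
        simp [hd] at h2
      obtain ⟨v, hvW, hv⟩ := Finset.exists_min_image W' w hW'.1
      obtain ⟨s, hs⟩ : (W'.erase v).Nonempty := by
        rw [← Finset.card_pos, Finset.card_erase_of_mem hvW]
        omega
      obtain ⟨hsv, hsW⟩ := Finset.mem_erase.1 hs
      refine good_apply s v hsv (hv s hsW) ?_
      intro F hF hvF hsF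
      obtain ⟨hTV, hcardW, hsubW⟩ := dual F hF
      set W := (F.biUnion e)ᶜ with hWdef
      have hvWW : v ∈ W := by rw [hWdef, Finset.mem_compl]; exact hvF
      have hsWW : s ∉ W := by rw [hWdef, Finset.mem_compl]; exact fun h => h hsF
      have hI1 : (W ∩ W').Nonempty := ⟨v, Finset.mem_inter.2 ⟨hvWW, hvW⟩⟩
      have hI2 : (W ∩ W').card < W'.card := by
        apply Finset.card_lt_card
        refine ⟨Finset.inter_subset_right, fun h => ?_⟩
        exact hsWW (Finset.mem_inter.1 (h hsW)).1
      have hInu : (W ∩ W') ≠ univ := by
        intro h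
        exact hsWW (Finset.mem_inter.1 (h ▸ Finset.mem_univ s)).1
      have hI3 := hconnV _ hI1 hInu
      have hI4 : ¬ TV (W ∩ W') := by
        intro h
        have := hminV _ h
        omega
      have hI5 : (W ∩ W').card + 2 ≤ ((W ∩ W').biUnion d).card := by
        by_contra hcon
        apply hI4
        refine ⟨hI1, by omega, ?_⟩
        have := hW'.2.2
        omega
      have hsm := submod d W W'
      have hU : W ∪ W' = univ := by
        by_contra hcon
        have h1 := hconnV (W ∪ W') (hI1.mono (Finset.inter_subset_union)) hcon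
        have h2 := Finset.card_union_add_card_inter W W'
        have h3' := hTV.2.1
        have h4 := hW'.2.1
        omega
      have hsub : F.biUnion e ⊆ W'.erase v := by
        intro x hx
        rw [Finset.mem_erase]
        refine ⟨fun h => hvF (h ▸ hx), ?_⟩
        have hxU : x ∈ W ∪ W' := by rw [hU]; exact Finset.mem_univ _
        rcases Finset.mem_union.1 hxU with h | h
        · rw [hWdef, Finset.mem_compl] at h
          exact absurd hx h
        · exact h
      have h5 := Finset.card_le_card hsub
      rw [Finset.card_erase_of_mem hvW, hF.2.1] at h5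
      have h6 := hminE F hF
      omega
    · -- Case 2: smallest tight set is an edge set
      set Q := F'.biUnion e with hQ
      have hQcard : Q.card = k + 1 := by rw [hQ, hF'.2.1, hF'k]
      -- counting non-interior vertices
      have hcount : ((Q.filter (fun x => ¬ d x ⊆ F')).card) ≤ 3 := by
        have h1 : ∑ i ∈ F', (e i).card = ∑ x ∈ Q, (d x ∩ F').card := by
          have h := Finset.sum_card_bipartiteAbove_eq_sum_card_bipartiteBelow
            (s := F') (t := Q) (fun i v => v ∈ e i)
          have ha : ∀ i ∈ F', (Finset.bipartiteAbove (fun i v => v ∈ e i) Q i) = e i := by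
            intro i hi
            ext v
            simp only [Finset.bipartiteAbove, Finset.mem_filter]
            exact ⟨fun h => h.2, fun h => ⟨Finset.mem_biUnion.2 ⟨i, hi, h⟩, h⟩⟩
          have hb : ∀ v, (Finset.bipartiteBelow (fun i v => v ∈ e i) F' v) = d v ∩ F' := by
            intro v
            ext i
            simp only [Finset.bipartiteBelow, Finset.mem_filter, Finset.mem_inter, hed]
            exact and_comm
          simp only [hb] at h
          rw [← h]
          exact Finset.sum_congr rfl fun i hi => by rw [ha i hi]
        have h2 : ∑ i ∈ F', (e i).card = 3 * k := by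
          rw [Finset.sum_congr rfl (fun i _ => h3 i), Finset.sum_const, hF'k, smul_eq_mul, mul_comm]
        have h4 : ∀ x ∈ Q, (d x ∩ F').card + (if ¬ d x ⊆ F' then 1 else 0) ≤ 3 := by
          intro x _
          by_cases hx : d x ⊆ F'
          · rw [Finset.inter_eq_left.2 hx, hd x]
            simp [hx]
          · have h5 : (d x ∩ F').card < (d x).card := by
              apply Finset.card_lt_card
              refine ⟨Finset.inter_subset_left, fun h => hx (fun y hy => ?_)⟩
              exact (Finset.mem_inter.1 (h hy)).2
            rw [hd x] at h5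
            simp only [hx, not_false_eq_true, if_true]
            omega
        have h5 := Finset.sum_le_sum h4
        rw [Finset.sum_add_distrib, ← h1, h2, Finset.sum_const, hQcard, ← Finset.card_filter,
          smul_eq_mul] at h5
        omega
      have hcount2 : k + 1 ≤ (Q.filter (fun x => d x ⊆ F')).card + 3 := by
        have h1 := Finset.card_filter_add_card_filter_not (s := Q) (fun x => d x ⊆ F')
        rw [hQcard] at h1
        omega
      by_cases hk4 : 4 ≤ k
      · -- large case
        obtain ⟨v, hvQ, hv⟩ := Finset.exists_min_image Q w (by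
          rw [← Finset.card_pos]; omega)
        obtain ⟨s, hs⟩ : ((Q.filter (fun x => d x ⊆ F')).erase v).Nonempty := by
          rw [← Finset.card_pos]
          have := Finset.pred_card_le_card_erase (s := Q.filter (fun x => d x ⊆ F')) (a := v)
          omega
        obtain ⟨hsv, hsf⟩ := Finset.mem_erase.1 hs
        obtain ⟨hsQ, hsint⟩ := Finset.mem_filter.1 hsf
        refine good_apply s v hsv (hv s hsQ) ?_
        intro F hF hvF hsF
        obtain ⟨hTV, hcardW, hsubW⟩ := dual F hF
        obtain ⟨i, hiF, hsi⟩ := Finset.mem_biUnion.1 hsF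
        have hiF' : i ∈ F' := hsint ((hed s i).1 hsi)
        obtain ⟨j, hjF', hvj⟩ := Finset.mem_biUnion.1 hvQ
        have hjF : j ∉ F := fun h => hvF (Finset.mem_biUnion.2 ⟨j, h, hvj⟩)
        have hI1 : (F ∩ F').Nonempty := ⟨i, Finset.mem_inter.2 ⟨hiF, hiF'⟩⟩
        have hI2 : (F ∩ F').card < F'.card := by
          apply Finset.card_lt_card
          refine ⟨Finset.inter_subset_right, fun h => ?_⟩
          exact hjF (Finset.mem_inter.1 (h hjF')).1
        have hInu : (F ∩ F') ≠ univ := by
          intro h
          exact hjF (Finset.mem_inter.1 (h ▸ Finset.mem_univ j)).1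
        have hI3 := hconn _ hI1 hInu
        have hI4 : ¬ TE (F ∩ F') := by
          intro h
          have := hminE _ h
          omega
        have hI5 : (F ∩ F').card + 2 ≤ ((F ∩ F').biUnion e).card := by
          by_contra hcon
          apply hI4
          refine ⟨hI1, by omega, ?_⟩
          have := hF'.2.2
          omega
        have hsm := submod e F F'
        have hU : F ∪ F' = univ := by
          by_contra hcon
          have h1 := hconn (F ∪ F') (hI1.mono (Finset.inter_subset_union)) hcon
          have h2 := Finset.card_union_add_card_inter F F'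
          have h3' := hF.2.1
          have h4 := hF'.2.1
          omega
        have h7 := Finset.card_union_add_card_inter F F'
        rw [hU, Finset.card_univ, ← hcard] at h7
        have h8 := hminV _ hTV
        have h9 := Finset.card_pos.2 hI1
        omega
      · -- small cases: the hypergraph is two-colourable
        have hk1 : k ≠ 1 := by
          rintro rfl
          obtain ⟨i, hi⟩ := Finset.card_eq_one.1 hF'k
          rw [hQ, hi, Finset.singleton_biUnion, h3 i] at hQcard
          omega
        have hk0 : 0 < k := by
          rw [← hF'k]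
          exact Finset.card_pos.2 hF'.1
        by_cases hk2 : k = 2
        · subst hk2
          obtain ⟨i, j, hij, hF'ij⟩ := Finset.card_eq_two.1 hF'k
          have hQ2 : Q = e i ∪ e j := by
            rw [hQ, hF'ij]
            simp
          have hi : e i = Q := by
            apply Finset.eq_of_subset_of_card_le
            · rw [hQ2]; exact Finset.subset_union_left
            · rw [hQcard, h3 i]
          have hj : e j = Q := by
            apply Finset.eq_of_subset_of_card_le
            · rw [hQ2]; exact Finset.subset_union_right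
            · rw [hQcard, h3 j]
          obtain ⟨c, hc⟩ := two_color e _ (univ.erase i) rfl (by
            intro F hF hFne
            refine hconn F hFne ?_
            rintro rfl
            exact (Finset.mem_erase.1 (hF (Finset.mem_univ i))).1 rfl)
          refine of_coloring e w c ?_
          intro l
          by_cases hl : l = i
          · subst hl
            rw [hi, ← hj]
            exact hc j (Finset.mem_erase.2 ⟨hij.symm, Finset.mem_univ _⟩)
          · exact hc l (Finset.mem_erase.2 ⟨hl, Finset.mem_univ _⟩)
        · have hk3 : k = 3 := by omega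
          subst hk3
          obtain ⟨p, hp⟩ : (Q.filter (fun x => d x ⊆ F')).Nonempty := by
            rw [← Finset.card_pos]
            omega
          obtain ⟨hpQ, hpint⟩ := Finset.mem_filter.1 hp
          have hdp : d p = F' := Finset.eq_of_subset_of_card_le hpint (by rw [hd p, hF'k])
          obtain ⟨c, hc⟩ := two_color e _ (univ.filter (fun i => i ∉ F')) rfl (by
            intro F hF hFne
            refine hconn F hFne ?_
            rintro rfl
            obtain ⟨i, hi⟩ := hF'.1
            exact (Finset.mem_filter.1 (hF (Finset.mem_univ i))).2 hi)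
          have hQp : (Q.erase p).card = 3 := by
            rw [Finset.card_erase_of_mem hpQ, hQcard]
          obtain ⟨M, hM⟩ : ∃ M : Bool, ((Q.erase p).filter (fun x => c x = !M)).card ≤ 1 := by
            have h1 := Finset.card_filter_add_card_filter_not (s := Q.erase p) (fun x => c x = true)
            rw [hQp] at h1
            by_cases h : ((Q.erase p).filter (fun x => c x = true)).card ≤ 1
            · exact ⟨false, by simpa using h⟩
            · refine ⟨true, ?_⟩
              have h2 : (Q.erase p).filter (fun x => c x = !true)
                  = (Q.erase p).filter (fun x => ¬ c x = true) := by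
                ext x
                simp
              rw [h2]
              omega
          have hedge : ∀ i ∈ F', ∃ x ∈ e i, x ≠ p ∧ c x = M := by
            intro i hi
            have hpi : p ∈ e i := by rw [hed, hdp]; exact hi
            by_contra hcon
            push Not at hcon
            have hsub : (e i).erase p ⊆ (Q.erase p).filter (fun x => c x = !M) := by
              intro x hx
              obtain ⟨hxp, hxi⟩ := Finset.mem_erase.1 hx
              refine Finset.mem_filter.2 ⟨Finset.mem_erase.2 ⟨hxp, Finset.mem_biUnion.2 ⟨i, hi, hxi⟩⟩, ?_⟩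
              have := hcon x hxi hxp
              cases hcx : c x <;> cases M <;> simp_all
            have h1 := Finset.card_le_card hsub
            rw [Finset.card_erase_of_mem hpi, h3 i] at h1
            omega
          refine of_coloring e w (fun x => if x = p then !M else c x) ?_
          intro i
          by_cases hi : i ∈ F'
          · have hpi : p ∈ e i := by rw [hed, hdp]; exact hi
            obtain ⟨x, hx, hxp, hcx⟩ := hedge i hi
            cases M
            · exact ⟨⟨p, hpi, by simp⟩, ⟨x, hx, by simp [hxp, hcx]⟩⟩
            · exact ⟨⟨x, hx, by simp [hxp, hcx]⟩, ⟨p, hpi, by simp⟩⟩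
          · have hpi : p ∉ e i := by rw [hed, hdp]; exact hi
            obtain ⟨⟨a, ha, hca⟩, ⟨b, hb, hcb⟩⟩ := hc i (by simp [hi])
            have hap : a ≠ p := fun h => hpi (h ▸ ha)
            have hbp : b ≠ p := fun h => hpi (h ▸ hb)
            exact ⟨⟨a, ha, by simp [hap, hca]⟩, ⟨b, hb, by simp [hbp, hcb]⟩⟩

end Pool.Agent.N447
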