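import Pool.Agent.N447.Color

set_option autoImplicit false

namespace Pool.Agent.N447

open Finset

/-- The pair lemma: drop the members containing `v`, delete the point `s`, two-colour the rest,
and put `v` in both classes. -/
theorem pair {V ι : Type*} [Fintype V] [DecidableEq V] [Fintype ι] [DecidableEq ι]
    (e : ι → Finset V) (w : V → ℝ) (s v : V) (hsv : s ≠ v)
    (hall : ∀ F : Finset ι, F.Nonempty → v ∉ F.biUnion e →
      F.card < (F.biUnion e).card ∧ (s ∈ F.biUnion e → F.card + 1 < (F.biUnion e).card)) :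
    ∃ T : Finset V, (∀ i, ∃ x ∈ T, x ∈ e i) ∧ 2 * ∑ x ∈ T, w x ≤ (∑ x, w x) + w v - w s := by
  classical
  obtain ⟨c, hc⟩ := two_color (fun i => (e i).erase s) _ (univ.filter (fun i => v ∉ e i)) rfl (by
    intro F hF hFne
    have hv : v ∉ F.biUnion e := by
      intro h
      obtain ⟨i, hi, hvi⟩ := Finset.mem_biUnion.1 h
      exact (Finset.mem_filter.1 (hF hi)).2 hvi
    have heq : F.biUnion (fun i => (e i).erase s) = (F.biUnion e).erase s := by
      ext x
      simp only [Finset.mem_biUnion, Finset.mem_erase]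
      constructor
      · rintro ⟨i, hi, hx, hxi⟩
        exact ⟨hx, i, hi, hxi⟩
      · rintro ⟨hx, i, hi, hxi⟩
        exact ⟨i, hi, hx, hxi⟩
    rw [heq]
    obtain ⟨h1, h2⟩ := hall F hFne hv
    by_cases hs : s ∈ F.biUnion e
    · have := h2 hs
      rw [Finset.card_erase_of_mem hs]
      omega
    · rw [Finset.erase_eq_of_notMem hs]
      exact h1)
  have key : ∀ b : Bool, ∀ i, ∃ x ∈ univ.filter (fun x => x ≠ s ∧ (c x = b ∨ x = v)), x ∈ e i := by
    intro b i
    by_cases hvi : v ∈ e i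
    · exact ⟨v, by simp [hsv.symm], hvi⟩
    · obtain ⟨⟨a, ha, hca⟩, ⟨a', ha', hca'⟩⟩ := hc i (by simp [hvi])
      cases b
      · exact ⟨a', by simp [(Finset.mem_erase.1 ha').1, hca'], (Finset.mem_erase.1 ha').2⟩
      · exact ⟨a, by simp [(Finset.mem_erase.1 ha).1, hca], (Finset.mem_erase.1 ha).2⟩
  have hsum : ∑ x ∈ univ.filter (fun x => x ≠ s ∧ (c x = true ∨ x = v)), w x
      + ∑ x ∈ univ.filter (fun x => x ≠ s ∧ (c x = false ∨ x = v)), w x
      = (∑ x, w x) + w v - w s := by
    rw [Finset.sum_filter, Finset.sum_filter, ← Finset.sum_add_distrib]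
    have h1 : w v = ∑ x, if x = v then w x else 0 := by simp
    have h2 : w s = ∑ x, if x = s then w x else 0 := by simp
    rw [h1, h2, ← Finset.sum_add_distrib, ← Finset.sum_sub_distrib]
    refine Finset.sum_congr rfl fun x _ => ?_
    by_cases hxs : x = s
    · subst hxs
      simp [hsv]
    · by_cases hxv : x = v
      · simp [hxv, hsv.symm]
      · cases hcx : c x <;> simp [hxs, hxv]
  rcases le_total (∑ x ∈ univ.filter (fun x => x ≠ s ∧ (c x = true ∨ x = v)), w x)
      (∑ x ∈ univ.filter (fun x => x ≠ s ∧ (c x = false ∨ x = v)), w x) with h | h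
  · exact ⟨_, key true, by linarith⟩
  · exact ⟨_, key false, by linarith⟩

/-- A two-colouring gives a light transversal. -/
theorem of_coloring {V ι : Type*} [Fintype V] [DecidableEq V]
    (e : ι → Finset V) (w : V → ℝ) (c : V → Bool)
    (hc : ∀ i, (∃ v ∈ e i, c v = true) ∧ (∃ v ∈ e i, c v = false)) :
    ∃ T : Finset V, (∀ i, ∃ x ∈ T, x ∈ e i) ∧ 2 * ∑ x ∈ T, w x ≤ ∑ x, w x := by
  classical
  have hsum : ∑ x ∈ univ.filter (fun x => c x = true), w x
      + ∑ x ∈ univ.filter (fun x => c x = false), w x = ∑ x, w x := by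
    rw [Finset.sum_filter, Finset.sum_filter, ← Finset.sum_add_distrib]
    refine Finset.sum_congr rfl fun x _ => ?_
    cases hcx : c x <;> simp
  rcases le_total (∑ x ∈ univ.filter (fun x => c x = true), w x)
      (∑ x ∈ univ.filter (fun x => c x = false), w x) with h | h
  · refine ⟨univ.filter (fun x => c x = true), fun i => ?_, by linarith⟩
    obtain ⟨⟨a, ha, hca⟩, _⟩ := hc i
    exact ⟨a, by simp [hca], ha⟩
  · refine ⟨univ.filter (fun x => c x = false), fun i => ?_, by linarith⟩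
    obtain ⟨_, ⟨a, ha, hca⟩⟩ := hc i
    exact ⟨a, by simp [hca], ha⟩

theorem submod {α β : Type*} [DecidableEq α] [DecidableEq β] (f : α → Finset β)
    (A B : Finset α) :
    ((A ∪ B).biUnion f).card + ((A ∩ B).biUnion f).card ≤
      (A.biUnion f).card + (B.biUnion f).card := by
  have h1 : (A ∪ B).biUnion f = A.biUnion f ∪ B.biUnion f := by
    ext x
    simp only [Finset.mem_biUnion, Finset.mem_union]
    constructor
    · rintro ⟨a, ha | ha, hx⟩
      · exact Or.inl ⟨a, ha, hx⟩
      · exact Or.inr ⟨a, ha, hx⟩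
    · rintro (⟨a, ha, hx⟩ | ⟨a, ha, hx⟩)
      · exact ⟨a, Or.inl ha, hx⟩
      · exact ⟨a, Or.inr ha, hx⟩
  have h2 : (A ∩ B).biUnion f ⊆ A.biUnion f ∩ B.biUnion f := by
    intro x hx
    obtain ⟨a, ha, hxa⟩ := Finset.mem_biUnion.1 hx
    exact Finset.mem_inter.2 ⟨Finset.mem_biUnion.2 ⟨a, (Finset.mem_inter.1 ha).1, hxa⟩,
      Finset.mem_biUnion.2 ⟨a, (Finset.mem_inter.1 ha).2, hxa⟩⟩
  rw [h1]
  have h3 := Finset.card_union_add_card_inter (A.biUnion f) (B.biUnion f)
  have h4 := Finset.card_le_card h2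
  omega

end Pool.Agent.N447
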